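import Pool.Agent.H484.AL.Stm

namespace Pool.Agent.H484.AL

open Finset
open scoped Classical

theorem t_EXC2 (hQM : S_QM) : S_EXC2 := by
  intro e B g M a0 J t0 t1 α η hR h01 h1J hη
  have hcardΩ : ((Om e J t0 t1).card : ℝ) = ((t1 : ℝ) - t0) * (2 * (J : ℝ)) ^ e := by
    unfold Om jset
    rw [card_product, Nat.card_Ico, Fintype.card_piFinset]
    simp only [Nat.card_Ico, prod_const, card_univ, Fintype.card_fin]
    have : 5 * J - 3 * J = 2 * J := by omega
    rw [this]
    push_cast [Nat.cast_sub h01]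
    ring
  have hsum : ∑ b : Fin e → Fin M, QQ e g M a0 B J t0 t1 α (fun i => (b i : ℕ))
      ≤ ((t1 : ℝ) - t0) * (2 * (J : ℝ)) ^ e * (18 * 4 ^ e) * (M : ℝ) ^ e := by
    unfold QQ
    rw [sum_comm]
    calc ∑ w ∈ Om e J t0 t1, ∑ b : Fin e → Fin M,
          (B : ℝ) ^ w.1 * (NN e g M a0 B α (fun i => (b i : ℕ)) w.1 w.2 : ℝ) ^ 2
        ≤ ∑ w ∈ Om e J t0 t1, 18 * 4 ^ e * (M : ℝ) ^ e := by
          refine sum_le_sum fun w hw => ?_
          rw [← mul_sum]
          unfold Om at hw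
          rw [mem_product, mem_Ico] at hw
          exact hQM e B g M a0 J α hR w.1 w.2 (by omega) hw.2
      _ = _ := by
          rw [sum_const, nsmul_eq_mul, hcardΩ]
          ring
  rcases Nat.eq_or_lt_of_le h01 with h | h
  · have he : (univ.filter (fun b : Fin e → Fin M =>
      ((t1 : ℝ) - t0) * (2 * (J : ℝ)) ^ e * (18 * 4 ^ e) / η
        < QQ e g M a0 B J t0 t1 α (fun i => (b i : ℕ)))) = ∅ := by
      apply filter_eq_empty_iff.mpr
      intro b _
      subst h
      simp [QQ, Om]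
    rw [he]
    simp only [card_empty, Nat.cast_zero]
    positivity
  · set K : ℝ := ((t1 : ℝ) - t0) * (2 * (J : ℝ)) ^ e * (18 * 4 ^ e) with hK
    have hKpos : 0 < K := by
      have h1 : (0 : ℝ) < (t1 : ℝ) - t0 := by
        have : (t0 : ℝ) < t1 := by exact_mod_cast h
        linarith
      have h2 : (0 : ℝ) < (J : ℝ) := by exact_mod_cast hR.hJ
      positivity
    set S := univ.filter (fun b : Fin e → Fin M =>
      K / η < QQ e g M a0 B J t0 t1 α (fun i => (b i : ℕ))) with hS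
    have hQ0 : ∀ b : Fin e → Fin M, 0 ≤ QQ e g M a0 B J t0 t1 α (fun i => (b i : ℕ)) := by
      intro b
      unfold QQ
      exact sum_nonneg fun w _ => by positivity
    have h1 : (S.card : ℝ) * (K / η) ≤ K * (M : ℝ) ^ e := by
      calc (S.card : ℝ) * (K / η) = ∑ b ∈ S, K / η := by rw [sum_const, nsmul_eq_mul]
        _ ≤ ∑ b ∈ S, QQ e g M a0 B J t0 t1 α (fun i => (b i : ℕ)) :=
            sum_le_sum fun b hb => (mem_filter.mp hb).2.le
        _ ≤ ∑ b : Fin e → Fin M, QQ e g M a0 B J t0 t1 α (fun i => (b i : ℕ)) :=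
            sum_le_sum_of_subset_of_nonneg (subset_univ _) fun b _ _ => hQ0 b
        _ ≤ K * (M : ℝ) ^ e := hsum
    have h2 : (S.card : ℝ) * (K / η) = K * ((S.card : ℝ) / η) := by ring
    rw [h2] at h1
    have h3 : (S.card : ℝ) / η ≤ (M : ℝ) ^ e := le_of_mul_le_mul_left h1 hKpos
    rwa [div_le_iff₀ hη, mul_comm] at h3

end Pool.Agent.H484.AL
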